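import Mathlib
import Pool.Agent.Helper951.WheelCE

/-!
# Joins of two perfect matchings contain no wheel on five or more vertices

Lemmas for MP_1392dc_co. Several lemmas are copies of those in the starting files for MP_65a48b_co.
-/

set_option autoImplicit false
set_option linter.unusedSimpArgs false

namespace Pool.Agent.Q102.WH

open Finset Pool.Agent.Helper951.Defs Pool.Agent.Helper951.Spec Pool.Agent.Helper951.WheelCE

/-- number of edges of the join of two perfect matchings -/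
lemma JM_edges (p q : ℕ) : (JM (2 * p) (2 * q)).edgeFinset.card = 4 * p * q + p + q := by
  have h := (JM (2 * p) (2 * q)).sum_degrees_eq_twice_card_edges
  rw [Fintype.sum_sum_type] at h
  simp only [JM_deg_l, JM_deg_r] at h
  rw [Finset.sum_add_distrib, Finset.sum_add_distrib, sum_matched_even, sum_matched_even] at h
  simp only [Finset.sum_const, Finset.card_univ, Fintype.card_fin, smul_eq_mul] at h
  nlinarith

/-- the spectral radius of the join of two perfect matchings -/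
lemma JM_specRad (p q : ℕ) (hp : 1 ≤ p) (hq : 1 ≤ q) :
    specRad (JM (2 * p) (2 * q)) = 1 + 2 * Real.sqrt (p * q) := by
  have : Nonempty (Fin (2 * p) ⊕ Fin (2 * q)) := ⟨Sum.inl ⟨0, by omega⟩⟩
  have hp0 : (0 : ℝ) < p := by exact_mod_cast hp
  have hq0 : (0 : ℝ) < q := by exact_mod_cast hq
  have sp : 0 < Real.sqrt p := Real.sqrt_pos.2 hp0
  have sq : 0 < Real.sqrt q := Real.sqrt_pos.2 hq0
  have sp2 : Real.sqrt p * Real.sqrt p = p := Real.mul_self_sqrt hp0.le
  have sq2 : Real.sqrt q * Real.sqrt q = q := Real.mul_self_sqrt hq0.le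
  have spq : Real.sqrt (p * q) = Real.sqrt p * Real.sqrt q := Real.sqrt_mul hp0.le _
  let y : Fin (2 * p) ⊕ Fin (2 * q) → ℝ := Sum.elim (fun _ => Real.sqrt q) (fun _ => Real.sqrt p)
  have hy : ∀ v, 0 < y v := by
    rintro (i | i)
    · exact sq
    · exact sp
  have hrow : ∀ v, ∑ u ∈ (JM (2 * p) (2 * q)).neighborFinset v, y u =
      (1 + 2 * Real.sqrt (p * q)) * y v := by
    rintro (i | i)
    · rw [JM_sum_l]
      simp only [y, Sum.elim_inl, Sum.elim_inr, Finset.sum_const, mat_count, Finset.card_univ,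
        Fintype.card_fin, nsmul_eq_mul]
      have := i.isLt
      rw [if_pos (by omega), spq]
      push_cast
      have e : 2 * (p : ℝ) * Real.sqrt p = 2 * (Real.sqrt p * Real.sqrt q) * Real.sqrt q +
          2 * (p : ℝ) * Real.sqrt p - 2 * (Real.sqrt p * (Real.sqrt q * Real.sqrt q)) := by ring
      rw [sq2] at e
      nlinarith
    · rw [JM_sum_r]
      simp only [y, Sum.elim_inl, Sum.elim_inr, Finset.sum_const, mat_count, Finset.card_univ,
        Fintype.card_fin, nsmul_eq_mul]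
      have := i.isLt
      rw [if_pos (by omega), spq]
      push_cast
      have e : (Real.sqrt p * Real.sqrt p) * Real.sqrt q = p * Real.sqrt q := by rw [sp2]
      nlinarith
  apply le_antisymm
  · exact specRad_le_of_super _ y hy _ (fun v => (hrow v).le)
  · exact le_specRad_of_sub _ y (fun v => (hy v).le) ⟨Sum.inl ⟨0, by omega⟩, hy _⟩ _
      (fun v => (hrow v).ge)

/-- comparison of `1 + 2 √(pq)` with the bound of Q1 -/
lemma bound_lt_iff (p q : ℕ) (hq : 1 ≤ q) (hqp : q ≤ p) :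
    (1 + Real.sqrt (4 * ((4 * p * q + p + q : ℕ) : ℝ) - 3)) / 2 < 1 + 2 * Real.sqrt (p * q) ↔
      (p - q) ^ 2 + 1 < 2 * (p + q) := by
  obtain ⟨d, rfl⟩ := Nat.exists_eq_add_of_le hqp
  have hq1 : (1 : ℝ) ≤ q := by exact_mod_cast hq
  have hd0 : (0 : ℝ) ≤ d := Nat.cast_nonneg d
  rw [Nat.add_sub_cancel_left]
  set X : ℝ := Real.sqrt (((q + d : ℕ) : ℝ) * q) with hX
  have hX0 : 0 ≤ X := Real.sqrt_nonneg _
  have hXs : X * X = (q + d) * q := by
    rw [hX, Real.mul_self_sqrt (by positivity)]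
    push_cast
    ring
  have hE : 4 * ((4 * (q + d) * q + (q + d) + q : ℕ) : ℝ) - 3 = 16 * (X * X) + 4 * (2 * q + d) - 3 := by
    rw [hXs]
    push_cast
    ring
  rw [hE]
  have hE0 : 0 ≤ 16 * (X * X) + 4 * (2 * (q : ℝ) + d) - 3 := by nlinarith
  have h1 : (1 + Real.sqrt (16 * (X * X) + 4 * (2 * (q : ℝ) + d) - 3)) / 2 < 1 + 2 * X ↔
      Real.sqrt (16 * (X * X) + 4 * (2 * (q : ℝ) + d) - 3) < 1 + 4 * X := by
    constructor <;> intro h <;> linarith
  rw [h1, Real.sqrt_lt' (by linarith)]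
  have h2 : (16 * (X * X) + 4 * (2 * (q : ℝ) + d) - 3 < (1 + 4 * X) ^ 2) ↔
      (2 * (q : ℝ) + d - 1 < 2 * X) := by
    constructor <;> intro h <;> nlinarith
  rw [h2]
  have h3 : (2 * (q : ℝ) + d - 1 < 2 * X) ↔ ((2 * (q : ℝ) + d - 1) ^ 2 < (2 * X) ^ 2) := by
    rw [sq_lt_sq₀ (by linarith) (by linarith)]
  rw [h3]
  have h4 : ((2 * (q : ℝ) + d - 1) ^ 2 < (2 * X) ^ 2) ↔ ((d : ℝ) ^ 2 + 1 < 2 * (q + d + q)) := by
    have : (2 * X) ^ 2 = 4 * ((q + d) * q) := by rw [← hXs]; ring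
    rw [this]
    constructor <;> intro h <;> nlinarith
  rw [h4]
  constructor
  · intro h
    exact_mod_cast h
  · intro h
    exact_mod_cast h

/-- the numbers `c^2 + c - d^2` with `d^2 + 1 < 2c` are different for different pairs -/
lemma num_inj {c d c' d' : ℕ} (h : d ^ 2 + 1 < 2 * c) (h' : d' ^ 2 + 1 < 2 * c')
    (e : c ^ 2 + c + d' ^ 2 = c' ^ 2 + c' + d ^ 2) : c = c' ∧ d = d' := by
  have hc : c = c' := by
    rcases lt_trichotomy c c' with hlt | heq | hgt
    · exfalso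
      nlinarith
    · exact heq
    · exfalso
      nlinarith
  subst hc
  refine ⟨rfl, ?_⟩
  have : d' ^ 2 = d ^ 2 := by omega
  exact (Nat.pow_left_injective (n := 2) (by norm_num) this).symm

/-- counting: at least `s^3` of the numbers up to `16 s^4` are of the form `c^2 + c - d^2` with
`d^2 + 1 < 2c` and `c`, `d` of the given parity `e` -/
lemma count (P : ℕ → Prop) (e : ℕ) (he : e ≤ 1)
    (hP : ∀ p q : ℕ, 1 ≤ q → q ≤ p → (p - q) ^ 2 + 1 < 2 * (p + q) → (p + q) % 2 = e →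
      P (4 * p * q + p + q)) (s : ℕ) (hs : 1 ≤ s) (x : ℕ) (hx : 16 * s ^ 4 ≤ x) :
    s ^ 3 ≤ {m | m ≤ x ∧ P m}.ncard := by
  classical
  let f : ℕ × ℕ → ℕ := fun a =>
    4 * (s ^ 2 + a.1 + a.2 + e) * (s ^ 2 + a.1 - a.2) + (s ^ 2 + a.1 + a.2 + e) +
      (s ^ 2 + a.1 - a.2)
  have hmem : ∀ a ∈ Finset.range (s ^ 2) ×ˢ Finset.range s,
      f a + (2 * a.2 + e) ^ 2 = (2 * s ^ 2 + 2 * a.1 + e) ^ 2 + (2 * s ^ 2 + 2 * a.1 + e) ∧
      (2 * a.2 + e) ^ 2 + 1 < 2 * (2 * s ^ 2 + 2 * a.1 + e) ∧ f a ≤ x ∧ P (f a) := by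
    rintro ⟨i, j⟩ ha
    rw [Finset.mem_product, Finset.mem_range, Finset.mem_range] at ha
    obtain ⟨hi, hj⟩ := ha
    simp only at hi hj
    have hss : s ≤ s ^ 2 := by nlinarith
    obtain ⟨r, hr⟩ : ∃ r, s ^ 2 + i = j + r ∧ 1 ≤ r := ⟨s ^ 2 + i - j, by omega, by omega⟩
    obtain ⟨hr, hr1⟩ := hr
    have hq : s ^ 2 + i - j = r := by omega
    have hp : s ^ 2 + i + j + e = r + 2 * j + e := by omega
    have hf : f (i, j) = 4 * (r + 2 * j + e) * r + (r + 2 * j + e) + r := by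
      simp only [f, hq, hp]
    have hc : 2 * s ^ 2 + 2 * i + e = 2 * r + 2 * j + e := by omega
    have h2 : (2 * j + e) ^ 2 + 1 < 2 * (2 * s ^ 2 + 2 * i + e) := by
      have hj1 : j + 1 ≤ s := hj
      have e1 : (2 * j + e) ^ 2 ≤ (2 * j + 1) ^ 2 := Nat.pow_le_pow_left (by omega) 2
      have e2 : (j + 1) ^ 2 ≤ s ^ 2 := Nat.pow_le_pow_left hj1 2
      nlinarith
    refine ⟨?_, h2, ?_, ?_⟩
    · rw [hf, hc]
      ring
    · have h3 : f (i, j) + (2 * j + e) ^ 2 =
          (2 * s ^ 2 + 2 * i + e) ^ 2 + (2 * s ^ 2 + 2 * i + e) := by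
        rw [hf, hc]
        ring
      have h4 : 2 * s ^ 2 + 2 * i + e + 1 ≤ 4 * s ^ 2 := by omega
      have h5 : (2 * s ^ 2 + 2 * i + e) ^ 2 + (2 * s ^ 2 + 2 * i + e) ≤ 16 * s ^ 4 := by
        calc (2 * s ^ 2 + 2 * i + e) ^ 2 + (2 * s ^ 2 + 2 * i + e)
            = (2 * s ^ 2 + 2 * i + e) * (2 * s ^ 2 + 2 * i + e + 1) := by ring
          _ ≤ (4 * s ^ 2) * (4 * s ^ 2) := Nat.mul_le_mul (by omega) h4
          _ = 16 * s ^ 4 := by ring
      omega
    · rw [hf]
      apply hP _ _ hr1 (by omega)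
      · have h6 : r + 2 * j + e - r = 2 * j + e := by omega
        rw [h6]
        rw [hc] at h2
        have : 2 * (r + 2 * j + e + r) = 2 * (2 * r + 2 * j + e) := by ring
        rw [this]
        exact h2
      · omega
  have hinj : Set.InjOn f (Finset.range (s ^ 2) ×ˢ Finset.range s : Finset (ℕ × ℕ)) := by
    intro a ha b hb hab
    obtain ⟨h1, h2, -, -⟩ := hmem a ha
    obtain ⟨h3, h4, -, -⟩ := hmem b hb
    have h5 := num_inj h2 h4 (by rw [← h1, ← h3, hab]; ring)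
    ext
    · omega
    · omega
  have hcard : s ^ 3 = ((Finset.range (s ^ 2) ×ˢ Finset.range s).image f).card := by
    rw [Finset.card_image_of_injOn hinj, Finset.card_product, Finset.card_range,
      Finset.card_range]
    ring
  rw [hcard, ← Set.ncard_coe_finset]
  apply Set.ncard_le_ncard
  · intro m hm
    rw [Finset.mem_coe, Finset.mem_image] at hm
    obtain ⟨a, ha, rfl⟩ := hm
    exact ⟨(hmem a ha).2.2.1, (hmem a ha).2.2.2⟩
  · exact (Set.finite_Iic x).subset (fun m hm => hm.1)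

/-- from `s^3` of the numbers up to `16 s^4` to `x^(3/4) / 64` of the numbers up to `x` -/
lemma density (P : ℕ → Prop) (h : ∀ s : ℕ, 1 ≤ s → ∀ x, 16 * s ^ 4 ≤ x →
    s ^ 3 ≤ {m | m ≤ x ∧ P m}.ncard) (x : ℕ) (hx : 16 ≤ x) :
    (x : ℝ) ^ (3 / 4 : ℝ) / 64 ≤ ({m | m ≤ x ∧ P m}.ncard : ℝ) := by
  set s := Nat.sqrt (Nat.sqrt (x / 16)) with hs
  have h1 : 1 ≤ x / 16 := by omega
  have h2 : 1 ≤ Nat.sqrt (x / 16) := by
    rw [Nat.le_sqrt]
    omega
  have h3 : 1 ≤ s := by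
    rw [hs, Nat.le_sqrt]
    omega
  have h4 : s ^ 2 ≤ Nat.sqrt (x / 16) := Nat.sqrt_le' _
  have h5 : Nat.sqrt (x / 16) ^ 2 ≤ x / 16 := Nat.sqrt_le' _
  have h6 : Nat.sqrt (x / 16) < (s + 1) ^ 2 := Nat.lt_succ_sqrt' _
  have h7 : x / 16 < (Nat.sqrt (x / 16) + 1) ^ 2 := Nat.lt_succ_sqrt' _
  have h8 : s ^ 4 ≤ x / 16 := by
    calc s ^ 4 = (s ^ 2) ^ 2 := by ring
      _ ≤ Nat.sqrt (x / 16) ^ 2 := Nat.pow_le_pow_left h4 2
      _ ≤ _ := h5
  have h9 : x / 16 < (s + 1) ^ 4 := by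
    calc x / 16 < (Nat.sqrt (x / 16) + 1) ^ 2 := h7
      _ ≤ ((s + 1) ^ 2) ^ 2 := Nat.pow_le_pow_left h6 2
      _ = (s + 1) ^ 4 := by ring
  have h10 : x ≤ 16 * (2 * s) ^ 4 := by
    have : (s + 1) ^ 4 ≤ (2 * s) ^ 4 := Nat.pow_le_pow_left (by omega) 4
    omega
  have h11 := h s h3 x (by omega)
  have h12 : (x : ℝ) ^ (3 / 4 : ℝ) ≤ 64 * (s : ℝ) ^ 3 := by
    have e1 : (x : ℝ) ≤ (4 * s : ℝ) ^ 4 := by
      have : (x : ℝ) ≤ ((16 * (2 * s) ^ 4 : ℕ) : ℝ) := by exact_mod_cast h10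
      refine this.trans (le_of_eq ?_)
      push_cast
      ring
    calc (x : ℝ) ^ (3 / 4 : ℝ) ≤ ((4 * s : ℝ) ^ 4) ^ (3 / 4 : ℝ) :=
          Real.rpow_le_rpow (Nat.cast_nonneg x) e1 (by norm_num)
      _ = (4 * s : ℝ) ^ 3 := by
          rw [← Real.rpow_natCast, ← Real.rpow_mul (by positivity), ← Real.rpow_natCast]
          norm_num
      _ = 64 * (s : ℝ) ^ 3 := by ring
  have h13 : ((s ^ 3 : ℕ) : ℝ) ≤ ({m | m ≤ x ∧ P m}.ncard : ℝ) := by exact_mod_cast h11
  rw [div_le_iff₀ (by norm_num)]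
  push_cast at h13
  linarith


/-- The join of two matchings contains no wheel on five or more vertices. -/
theorem JM_free_all (s t k : ℕ) (hk : 5 ≤ k) : ¬ (wheel k).IsContained (JM s t) := by
  obtain ⟨n, rfl⟩ : ∃ n, k = n + 5 := ⟨k - 5, by omega⟩
  rintro ⟨f⟩
  have hinj := f.injective
  have hadj : ∀ i j, (wheel (n + 5)).Adj i j → (JM s t).Adj (f.toHom i) (f.toHom j) :=
    fun i j h => f.toHom.map_adj h
  generalize f.toHom = g at hinj hadj
  let F : Fin (n + 4) → Fin s ⊕ Fin t := fun i => g (Sum.inr i)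
  have hF : Function.Injective F := fun i j h => Sum.inr_injective (hinj h)
  have h0 : ∀ i : Fin (n + 4), (JM s t).Adj (g (Sum.inl 0)) (F i) := fun i => hadj _ _ trivial
  have hc : ∀ i : Fin (n + 4), (JM s t).Adj (F i) (F (i + 1)) := by
    intro i
    apply hadj
    change (SimpleGraph.cycleGraph (n + 4)).Adj i (i + 1)
    rw [SimpleGraph.cycleGraph_adj]
    right
    simp
  have hne : ∀ i : Fin (n + 4), i ≠ i + 1 ∧ i ≠ i + 1 + 1 ∧ i ≠ i + 1 + 1 + 1 := by
    intro i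
    have e1 : (1 : Fin (n + 4)) ≠ 0 := by
      rw [Ne, Fin.ext_iff]
      simp
    have e2 : (1 + 1 : Fin (n + 4)) ≠ 0 := by
      rw [Ne, Fin.ext_iff, Fin.val_add]
      simp only [Fin.val_one, Fin.val_zero]
      rw [Nat.mod_eq_of_lt (by omega)]
      omega
    have e3 : (1 + 1 + 1 : Fin (n + 4)) ≠ 0 := by
      rw [Ne, Fin.ext_iff, Fin.val_add, Fin.val_add]
      simp only [Fin.val_one, Fin.val_zero]
      rw [Nat.mod_eq_of_lt (a := 1 + 1) (by omega), Nat.mod_eq_of_lt (by omega)]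
      omega
    refine ⟨fun h => e1 ?_, fun h => e2 ?_, fun h => e3 ?_⟩
    · have h' : i + 0 = i + 1 := by rw [add_zero]; exact h
      exact (add_left_cancel h').symm
    · have h' : i + 0 = i + (1 + 1) := by rw [add_zero, ← add_assoc]; exact h
      exact (add_left_cancel h').symm
    · have h' : i + 0 = i + (1 + 1 + 1) := by rw [add_zero, ← add_assoc, ← add_assoc]; exact h
      exact (add_left_cancel h').symm
  rcases hg : g (Sum.inl 0) with c | c
  · -- the hub is on the left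
    have h3 : ∀ i : Fin (n + 4), ∃ j, (j = i ∨ j = i + 1 ∨ j = i + 1 + 1) ∧ ∃ a, F j = Sum.inl a := by
      intro i
      rcases e0 : F i with a | a
      · exact ⟨i, Or.inl rfl, a, e0⟩
      rcases e1 : F (i + 1) with b | b
      · exact ⟨i + 1, Or.inr (Or.inl rfl), b, e1⟩
      rcases e2 : F (i + 1 + 1) with d | d
      · exact ⟨i + 1 + 1, Or.inr (Or.inr rfl), d, e2⟩
      exfalso
      have q1 := hc i
      have q2 := hc (i + 1)
      rw [e0, e1, JM_rr] at q1
      rw [e1, e2, JM_rr] at q2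
      have q3 : a = d := Fin.ext (by omega)
      have q4 : F i = F (i + 1 + 1) := by rw [e0, e2, q3]
      exact (hne i).2.1 (hF q4)
    obtain ⟨p, -, a, ha⟩ := h3 0
    obtain ⟨q, hq, b, hb⟩ := h3 (p + 1)
    have r1 := h0 p
    have r2 := h0 q
    rw [hg, ha, JM_ll] at r1
    rw [hg, hb, JM_ll] at r2
    have r3 : a = b := Fin.ext (by omega)
    have r4 : F p = F q := by rw [ha, hb, r3]
    have r5 := hF r4
    rcases hq with hq | hq | hq
    · exact (hne p).1 (r5.trans hq)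
    · exact (hne p).2.1 (r5.trans hq)
    · exact (hne p).2.2 (r5.trans hq)
  · have h3 : ∀ i : Fin (n + 4), ∃ j, (j = i ∨ j = i + 1 ∨ j = i + 1 + 1) ∧ ∃ a, F j = Sum.inr a := by
      intro i
      rcases e0 : F i with a | a
      swap
      · exact ⟨i, Or.inl rfl, a, e0⟩
      rcases e1 : F (i + 1) with b | b
      swap
      · exact ⟨i + 1, Or.inr (Or.inl rfl), b, e1⟩
      rcases e2 : F (i + 1 + 1) with d | d
      swap
      · exact ⟨i + 1 + 1, Or.inr (Or.inr rfl), d, e2⟩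
      exfalso
      have q1 := hc i
      have q2 := hc (i + 1)
      rw [e0, e1, JM_ll] at q1
      rw [e1, e2, JM_ll] at q2
      have q3 : a = d := Fin.ext (by omega)
      have q4 : F i = F (i + 1 + 1) := by rw [e0, e2, q3]
      exact (hne i).2.1 (hF q4)
    obtain ⟨p, -, a, ha⟩ := h3 0
    obtain ⟨q, hq, b, hb⟩ := h3 (p + 1)
    have r1 := h0 p
    have r2 := h0 q
    rw [hg, ha, JM_rr] at r1
    rw [hg, hb, JM_rr] at r2
    have r3 : a = b := Fin.ext (by omega)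
    have r4 : F p = F q := by rw [ha, hb, r3]
    have r5 := hF r4
    rcases hq with hq | hq | hq
    · exact (hne p).1 (r5.trans hq)
    · exact (hne p).2.1 (r5.trans hq)
    · exact (hne p).2.2 (r5.trans hq)

end Pool.Agent.Q102.WH
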